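import Pool.Agent.Lib.MP_73b196_co.Str.Clique
import Pool.Agent.Lib.MP_73b196_co.St.Defs

/-!
# Good complexes satisfy the rules of `St/Defs.lean`
-/

set_option autoImplicit false

namespace Pool.Agent.Lib.MP_73b196_co.Str

open Pool.Agent.Lib.MP_73b196_co.St

variable {V : Type} [Fintype V] [DecidableEq V]

theorem con_of_conn {Δ : Set (Finset V)} {A : Finset V} (h : Conn Δ A) : Con Δ A := by
  refine ⟨h.2.1, ?_⟩
  intro B hB hBne hcl
  apply Finset.Subset.antisymm hB
  by_contra hne
  have h1 : (A \ B).Nonempty := by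
    rw [Finset.nonempty_iff_ne_empty]
    intro h2
    exact hne (Finset.sdiff_eq_empty_iff_subset.1 h2)
  obtain ⟨b, hb, a, ha, hab⟩ := h.2.2 B hB hBne h1
  rw [Finset.mem_sdiff] at ha
  exact ha.2 (hcl b hb a ha.1 hab)

theorem mem_of_conn {Δ : Set (Finset V)} {A : Finset V} (h : Conn Δ A) : ∃ a ∈ A, ({a} : Finset V) ∈ Δ := by
  classical
  obtain ⟨a, ha⟩ := h.2.1
  have h1 := h.1 ha
  refine ⟨a, ha, ?_⟩
  simpa [vs] using h1

/-- The minor of a family of connected sets is a complex. -/
theorem isComplex_mi {W : Type} [Fintype W] [DecidableEq W] {Δ : Set (Finset V)} (hΔ : IsCx Δ)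
    {A : W → Finset V} (hA : ∀ w, Conn Δ (A w)) : IsComplex (mi Δ A) where
  empty := ⟨∅, hΔ.empty, fun i hi => absurd hi (Finset.notMem_empty i)⟩
  vertex := by
    intro w
    obtain ⟨a, ha, ha'⟩ := mem_of_conn (hA w)
    refine ⟨{a}, ha', ?_⟩
    intro i hi
    rw [Finset.mem_singleton] at hi
    subst hi
    exact ⟨a, Finset.mem_inter.2 ⟨Finset.mem_singleton_self a, ha⟩⟩
  down := by
    rintro F ⟨G, hG, hG'⟩ F' hF'
    exact ⟨G, hG, fun i hi => hG' i (hF' hi)⟩

theorem fam_of {W : Type} {Δ : Set (Finset V)} {A : W → Finset V} (hA : ∀ w, Conn Δ (A w))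
    (hd : ∀ i j, i ≠ j → Disjoint (A i) (A j)) : Fam Δ A :=
  ⟨hd, fun i => Or.inr (con_of_conn (hA i))⟩

theorem pair_of_touch {W : Type} [DecidableEq W] {Δ : Set (Finset V)} {A : W → Finset V} {i j : W}
    (h : touch Δ (A i) (A j)) : ({i, j} : Finset W) ∈ mi Δ A := by
  obtain ⟨a, ha, b, hb, hab⟩ := h
  refine ⟨{a, b}, hab.2, ?_⟩
  intro k hk
  rw [Finset.mem_insert, Finset.mem_singleton] at hk
  rcases hk with rfl | rfl
  · exact ⟨a, Finset.mem_inter.2 ⟨by simp, ha⟩⟩
  · exact ⟨b, Finset.mem_inter.2 ⟨by simp, hb⟩⟩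

theorem touch_symm {Δ : Set (Finset V)} {A B : Finset V} (h : touch Δ A B) : touch Δ B A := by
  obtain ⟨a, ha, b, hb, hab⟩ := h
  exact ⟨b, hb, a, ha, hab.1.symm, by rw [Finset.pair_comm]; exact hab.2⟩

/-- The clique theorem for models. -/
theorem model_clique {W : Type} [Fintype W] [DecidableEq W] {Δ : Set (Finset V)} (hΔ : IsCx Δ)
    (hG : Good Δ) {A : W → Finset V} (hA : ∀ w, Conn Δ (A w))
    (hd : ∀ i j, i ≠ j → Disjoint (A i) (A j)) (ht : ∀ i j, i ≠ j → touch Δ (A i) (A j)) :
    Filled Δ A Finset.univ ∨ ∃ x y, x ≠ y ∧ ∀ F : Finset W, ¬ Filled Δ A F →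
      x ∈ F ∧ y ∈ F ∧ ∃ b ∈ F, ¬ Filled Δ A {x, y, b} := by
  have h1 := isComplex_mi hΔ hA
  have h2 : Good (mi Δ A) := hG.mi hΔ.down (fam_of hA hd)
  have h3 : ∀ a ∈ (Finset.univ : Finset W), ∀ b ∈ (Finset.univ : Finset W),
      ({a, b} : Finset W) ∈ mi Δ A := by
    intro a _ b _
    by_cases hab : a = b
    · subst hab
      rw [Finset.pair_eq_singleton]
      exact h1.vertex a
    · exact pair_of_touch (ht a b hab)
  rcases nec h1 h2 Finset.univ h3 with h | ⟨x, -, y, -, hxy, h⟩
  · exact Or.inl h
  · exact Or.inr ⟨x, y, hxy, fun F hF => h F (Finset.subset_univ F) hF⟩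

theorem fill_of_filled {Δ : Set (Finset V)} {k : ℕ} {A : Fin k → Finset V} {I : Finset (Fin k)}
    {L : List (Finset V)} (hL : ∀ B ∈ L, ∃ i ∈ I, A i = B) (h : Filled Δ A I) : fill Δ L := by
  obtain ⟨F, hF, hF'⟩ := h
  refine ⟨F, hF, ?_⟩
  intro B hB
  obtain ⟨i, hi, rfl⟩ := hL B hB
  exact hF' i hi

theorem filled_of_fill {Δ : Set (Finset V)} {k : ℕ} {A : Fin k → Finset V} {I : Finset (Fin k)}
    {L : List (Finset V)} (hL : ∀ i ∈ I, A i ∈ L) (h : fill Δ L) : Filled Δ A I := by
  obtain ⟨F, hF, hF'⟩ := h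
  exact ⟨F, hF, fun i hi => hF' _ (hL i hi)⟩

/-- Good complexes satisfy all the rules. -/
theorem good_inP {Δ : Set (Finset V)} (hΔ : IsCx Δ) (hG : Good Δ) : InP Δ where
  cx := hΔ
  k4 := by
    intro A B C D hCM
    obtain ⟨hc, hp⟩ := hCM
    simp only [List.mem_cons, List.not_mem_nil, or_false, forall_eq_or_imp, forall_eq] at hc
    simp only [List.pairwise_cons, List.mem_cons, List.not_mem_nil, or_false, forall_eq_or_imp,
      forall_eq, List.Pairwise.nil, and_true, false_imp_iff, implies_true] at hp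
    set f : Fin 4 → Finset V := ![A, B, C, D] with hf
    have hfc : ∀ w, Conn Δ (f w) := by
      intro w
      fin_cases w
      exacts [hc.1, hc.2.1, hc.2.2.1, hc.2.2.2]
    have hfd : ∀ i j, i ≠ j → Disjoint (f i) (f j) := by
      intro i j hij
      fin_cases i <;> fin_cases j <;> first
        | exact absurd rfl hij
        | exact hp.1.1.1
        | exact hp.1.1.1.symm
        | exact hp.1.2.1.1
        | exact hp.1.2.1.1.symm
        | exact hp.1.2.2.1
        | exact hp.1.2.2.1.symm
        | exact hp.2.1.1.1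
        | exact hp.2.1.1.1.symm
        | exact hp.2.1.2.1
        | exact hp.2.1.2.1.symm
        | exact hp.2.2.1
        | exact hp.2.2.1.symm
    have hft : ∀ i j, i ≠ j → touch Δ (f i) (f j) := by
      intro i j hij
      fin_cases i <;> fin_cases j <;> first
        | exact absurd rfl hij
        | exact hp.1.1.2
        | exact touch_symm hp.1.1.2
        | exact hp.1.2.1.2
        | exact touch_symm hp.1.2.1.2
        | exact hp.1.2.2.2
        | exact touch_symm hp.1.2.2.2
        | exact hp.2.1.1.2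
        | exact touch_symm hp.2.1.1.2
        | exact hp.2.1.2.2
        | exact touch_symm hp.2.1.2.2
        | exact hp.2.2.2
        | exact touch_symm hp.2.2.2
    rcases model_clique hΔ hG hfc hfd hft with h | ⟨x, y, hxy, h⟩
    · left
      exact fill_of_filled (I := Finset.univ) (by
        intro X hX
        simp only [List.mem_cons, List.not_mem_nil, or_false] at hX
        rcases hX with rfl | rfl | rfl
        exacts [⟨0, Finset.mem_univ _, rfl⟩, ⟨1, Finset.mem_univ _, rfl⟩,
          ⟨2, Finset.mem_univ _, rfl⟩]) h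
    · by_contra hcon
      rw [not_or, not_or] at hcon
      obtain ⟨n1, n2, n3⟩ := hcon
      have m1 : ¬ Filled Δ f {0, 1, 2} := fun h => n1 (fill_of_filled (by
        intro X hX
        simp only [List.mem_cons, List.not_mem_nil, or_false] at hX
        rcases hX with rfl | rfl | rfl
        exacts [⟨0, by decide, rfl⟩, ⟨1, by decide, rfl⟩, ⟨2, by decide, rfl⟩]) h)
      have m2 : ¬ Filled Δ f {0, 1, 3} := fun h => n2 (fill_of_filled (by
        intro X hX
        simp only [List.mem_cons, List.not_mem_nil, or_false] at hX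
        rcases hX with rfl | rfl | rfl
        exacts [⟨0, by decide, rfl⟩, ⟨1, by decide, rfl⟩, ⟨3, by decide, rfl⟩]) h)
      have m3 : ¬ Filled Δ f {0, 2, 3} := fun h => n3 (fill_of_filled (by
        intro X hX
        simp only [List.mem_cons, List.not_mem_nil, or_false] at hX
        rcases hX with rfl | rfl | rfl
        exacts [⟨0, by decide, rfl⟩, ⟨2, by decide, rfl⟩, ⟨3, by decide, rfl⟩]) h)
      have g1 := h _ m1
      have g2 := h _ m2
      have g3 := h _ m3
      have key : ∀ z : Fin 4, z ∈ ({0, 1, 2} : Finset (Fin 4)) → z ∈ ({0, 1, 3} : Finset (Fin 4)) →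
          z ∈ ({0, 2, 3} : Finset (Fin 4)) → z = 0 := by decide
      exact hxy ((key x g1.1 g2.1 g3.1).trans (key y g1.2.1 g2.2.1 g3.2.1).symm)
  k5 := by
    intro A B C D E hCM
    obtain ⟨hc, hp⟩ := hCM
    set f : Fin 5 → Finset V := ![A, B, C, D, E] with hf
    have hfl : ∀ w, f w ∈ [A, B, C, D, E] := by
      intro w
      fin_cases w <;> simp [f]
    have hfc : ∀ w, Conn Δ (f w) := fun w => hc _ (hfl w)
    have hpw : ∀ i j : Fin 5, i < j → Disjoint (f i) (f j) ∧ touch Δ (f i) (f j) := by
      intro i j hij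
      have h1 := List.pairwise_iff_getElem.1 hp i.1 j.1 (by simp) (by simp) hij
      fin_cases i <;> fin_cases j <;> first
        | exact absurd hij (by decide)
        | exact h1
    have hfd : ∀ i j, i ≠ j → Disjoint (f i) (f j) := by
      intro i j hij
      rcases lt_or_gt_of_ne hij with h | h
      · exact (hpw i j h).1
      · exact (hpw j i h).1.symm
    have hft : ∀ i j, i ≠ j → touch Δ (f i) (f j) := by
      intro i j hij
      rcases lt_or_gt_of_ne hij with h | h
      · exact (hpw i j h).2
      · exact touch_symm (hpw j i h).2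
    rcases model_clique hΔ hG hfc hfd hft with h | ⟨x, y, hxy, h⟩
    · left
      exact fill_of_filled (I := Finset.univ) (by
        intro X hX
        simp only [List.mem_cons, List.not_mem_nil, or_false] at hX
        rcases hX with rfl | rfl | rfl
        exacts [⟨0, Finset.mem_univ _, rfl⟩, ⟨1, Finset.mem_univ _, rfl⟩,
          ⟨2, Finset.mem_univ _, rfl⟩]) h
    · by_contra hcon
      rw [not_or] at hcon
      obtain ⟨n1, n2⟩ := hcon
      have m1 : ¬ Filled Δ f {0, 1, 2} := fun h => n1 (fill_of_filled (by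
        intro X hX
        simp only [List.mem_cons, List.not_mem_nil, or_false] at hX
        rcases hX with rfl | rfl | rfl
        exacts [⟨0, by decide, rfl⟩, ⟨1, by decide, rfl⟩, ⟨2, by decide, rfl⟩]) h)
      have m2 : ¬ Filled Δ f {0, 3, 4} := fun h => n2 (fill_of_filled (by
        intro X hX
        simp only [List.mem_cons, List.not_mem_nil, or_false] at hX
        rcases hX with rfl | rfl | rfl
        exacts [⟨0, by decide, rfl⟩, ⟨3, by decide, rfl⟩, ⟨4, by decide, rfl⟩]) h)
      have g1 := h _ m1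
      have g2 := h _ m2
      have key : ∀ z : Fin 5, z ∈ ({0, 1, 2} : Finset (Fin 5)) → z ∈ ({0, 3, 4} : Finset (Fin 5)) →
          z = 0 := by decide
      exact hxy ((key x g1.1 g2.1).trans (key y g1.2.1 g2.2.1).symm)
  k6 := by
    intro A B C D E F hCM
    obtain ⟨hc, hp⟩ := hCM
    set f : Fin 6 → Finset V := ![A, B, C, D, E, F] with hf
    have hfl : ∀ w, f w ∈ [A, B, C, D, E, F] := by
      intro w
      fin_cases w <;> simp [f]
    have hfc : ∀ w, Conn Δ (f w) := fun w => hc _ (hfl w)
    have hpw : ∀ i j : Fin 6, i < j → Disjoint (f i) (f j) ∧ touch Δ (f i) (f j) := by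
      intro i j hij
      have h1 := List.pairwise_iff_getElem.1 hp i.1 j.1 (by simp) (by simp) hij
      fin_cases i <;> fin_cases j <;> first
        | exact absurd hij (by decide)
        | exact h1
    have hfd : ∀ i j, i ≠ j → Disjoint (f i) (f j) := by
      intro i j hij
      rcases lt_or_gt_of_ne hij with h | h
      · exact (hpw i j h).1
      · exact (hpw j i h).1.symm
    have hft : ∀ i j, i ≠ j → touch Δ (f i) (f j) := by
      intro i j hij
      rcases lt_or_gt_of_ne hij with h | h
      · exact (hpw i j h).2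
      · exact touch_symm (hpw j i h).2
    rcases model_clique hΔ hG hfc hfd hft with h | ⟨x, y, hxy, h⟩
    · left
      exact fill_of_filled (I := Finset.univ) (by
        intro X hX
        simp only [List.mem_cons, List.not_mem_nil, or_false] at hX
        rcases hX with rfl | rfl | rfl
        exacts [⟨0, Finset.mem_univ _, rfl⟩, ⟨1, Finset.mem_univ _, rfl⟩,
          ⟨2, Finset.mem_univ _, rfl⟩]) h
    · by_contra hcon
      rw [not_or] at hcon
      obtain ⟨n1, n2⟩ := hcon
      have m1 : ¬ Filled Δ f {0, 1, 2} := fun h => n1 (fill_of_filled (by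
        intro X hX
        simp only [List.mem_cons, List.not_mem_nil, or_false] at hX
        rcases hX with rfl | rfl | rfl
        exacts [⟨0, by decide, rfl⟩, ⟨1, by decide, rfl⟩, ⟨2, by decide, rfl⟩]) h)
      have m2 : ¬ Filled Δ f {3, 4, 5} := fun h => n2 (fill_of_filled (by
        intro X hX
        simp only [List.mem_cons, List.not_mem_nil, or_false] at hX
        rcases hX with rfl | rfl | rfl
        exacts [⟨3, by decide, rfl⟩, ⟨4, by decide, rfl⟩, ⟨5, by decide, rfl⟩]) h)
      have g1 := h _ m1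
      have g2 := h _ m2
      have key : ∀ z : Fin 6, z ∈ ({0, 1, 2} : Finset (Fin 6)) → z ∈ ({3, 4, 5} : Finset (Fin 6)) →
          False := by decide
      exact key x g1.1 g2.1
  nf := by
    intro 𝒜 hc hp ht
    have hfc : ∀ w : {A // A ∈ 𝒜}, Conn Δ w.1 := fun w => hc w.1 w.2
    rcases model_clique (A := fun w : {A // A ∈ 𝒜} => w.1) hΔ hG hfc
      (fun i j hij => (hp i.1 i.2 j.1 j.2 (fun h => hij (Subtype.ext h))).1)
      (fun i j hij => (hp i.1 i.2 j.1 j.2 (fun h => hij (Subtype.ext h))).2) with h | ⟨x, y, hxy, h⟩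
    · obtain ⟨F, hF, hF'⟩ := h
      exact ⟨F, hF, fun A hA => hF' ⟨A, hA⟩ (Finset.mem_univ _)⟩
    · by_contra hcon
      have h1 : ¬ Filled Δ (fun w : {A // A ∈ 𝒜} => w.1) Finset.univ := by
        rintro ⟨F, hF, hF'⟩
        exact hcon ⟨F, hF, fun A hA => hF' ⟨A, hA⟩ (Finset.mem_univ _)⟩
      obtain ⟨-, -, b, -, hb⟩ := h _ h1
      apply hb
      have hxy' : x.1 ≠ y.1 := fun h => hxy (Subtype.ext h)
      by_cases hxb : x = b
      · subst hxb
        have h2 := pair_of_touch (A := fun w : {A // A ∈ 𝒜} => w.1)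
          (hp x.1 x.2 y.1 y.2 hxy').2
        obtain ⟨F, hF, hF'⟩ := h2
        refine ⟨F, hF, ?_⟩
        intro i hi
        apply hF'
        simp only [Finset.mem_insert, Finset.mem_singleton] at hi ⊢
        tauto
      · by_cases hyb : y = b
        · subst hyb
          have h2 := pair_of_touch (A := fun w : {A // A ∈ 𝒜} => w.1)
            (hp x.1 x.2 y.1 y.2 hxy').2
          obtain ⟨F, hF, hF'⟩ := h2
          refine ⟨F, hF, ?_⟩
          intro i hi
          apply hF'
          simp only [Finset.mem_insert, Finset.mem_singleton] at hi ⊢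
          tauto
        · obtain ⟨F, hF, hF'⟩ := ht x.1 x.2 y.1 y.2 b.1 b.2 hxy'
            (fun h => hxb (Subtype.ext h)) (fun h => hyb (Subtype.ext h))
          refine ⟨F, hF, ?_⟩
          intro i hi
          simp only [Finset.mem_insert, Finset.mem_singleton] at hi
          rcases hi with rfl | rfl | rfl
          exacts [hF' _ (by simp), hF' _ (by simp), hF' _ (by simp)]
  x6 := by
    intro v w s t u z hc hp f1 f2 f3 f4 f5 n0 n1 n2 n3 n4
    set f : Fin 6 → Finset V := ![s, z, w, u, v, t] with hf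
    have hfl : ∀ i, f i ∈ [v, w, s, t, u, z] := by
      intro i
      fin_cases i <;> simp [f]
    have hfc : ∀ w, Conn Δ (f w) := fun w => hc _ (hfl w)
    simp only [List.pairwise_cons, List.mem_cons, List.not_mem_nil, or_false, forall_eq_or_imp,
      forall_eq, List.Pairwise.nil, and_true, false_imp_iff, implies_true] at hp
    obtain ⟨⟨vw, vs', vt, vu, vz⟩, ⟨ws, wt, wu, wz⟩, ⟨st, su, sz⟩, ⟨tu, tz⟩, uz⟩ := hp
    have hfd : ∀ i j, i ≠ j → Disjoint (f i) (f j) := by
      intro i j hij
      fin_cases i <;> fin_cases j <;> first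
        | exact absurd rfl hij
        | exact vw | exact vw.symm | exact vs' | exact vs'.symm | exact vt | exact vt.symm
        | exact vu | exact vu.symm | exact vz | exact vz.symm | exact ws | exact ws.symm
        | exact wt | exact wt.symm | exact wu | exact wu.symm | exact wz | exact wz.symm
        | exact st | exact st.symm | exact su | exact su.symm | exact sz | exact sz.symm
        | exact tu | exact tu.symm | exact tz | exact tz.symm | exact uz | exact uz.symm
    have hpair : ∀ i j : Fin 6, i ≠ j → ¬ touch Δ (f i) (f j) → ¬ Filled Δ f {i, j} := by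
      rintro i j hij hnt ⟨F, hF, hF'⟩
      obtain ⟨a, ha⟩ := hF' i (by simp)
      obtain ⟨b, hb⟩ := hF' j (by simp)
      rw [Finset.mem_inter] at ha hb
      apply hnt
      refine ⟨a, ha.2, b, hb.2, ?_, hΔ.down F hF _ ?_⟩
      · rintro rfl
        exact Finset.disjoint_left.1 (hfd i j hij) ha.2 hb.2
      · intro c hc
        rw [Finset.mem_insert, Finset.mem_singleton] at hc
        rcases hc with rfl | rfl
        exacts [ha.1, hb.1]
    have m1 : ¬ Filled Δ f {4, 5} := hpair 4 5 (by decide) n1
    have m2 : ¬ Filled Δ f {2, 3} := hpair 2 3 (by decide) n2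
    have m3 : ¬ Filled Δ f {2, 1} := hpair 2 1 (by decide) n3
    have m4 : ¬ Filled Δ f {0, 1} := hpair 0 1 (by decide) n4
    have m5 : ¬ Filled Δ f {4, 0, 3} := fun h => n0 (fill_of_filled (by
        intro X hX
        simp only [List.mem_cons, List.not_mem_nil, or_false] at hX
        rcases hX with rfl | rfl | rfl
        exacts [⟨4, by decide, rfl⟩, ⟨0, by decide, rfl⟩, ⟨3, by decide, rfl⟩]) h)
    have mono : ∀ I J : Finset (Fin 6), I ⊆ J → Filled Δ f J → Filled Δ f I := by
      rintro I J hIJ ⟨F, hF, hF'⟩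
      exact ⟨F, hF, fun i hi => hF' i (hIJ hi)⟩
    refine hG.x6 ⟨f, ⟨hfd, fun i => con_of_conn (hfc i)⟩, ?_⟩
    intro I
    constructor
    · intro hI
      have key : ∀ I : Finset (Fin 6), (∃ F ∈ X6, I ⊆ F) ∨ {4, 5} ⊆ I ∨ {2, 3} ⊆ I ∨ {2, 1} ⊆ I ∨
          {0, 1} ⊆ I ∨ {4, 0, 3} ⊆ I := by decide +kernel
      rcases key I with h | h | h | h | h | h
      · exact h
      · exact absurd (mono _ _ h hI) m1
      · exact absurd (mono _ _ h hI) m2
      · exact absurd (mono _ _ h hI) m3
      · exact absurd (mono _ _ h hI) m4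
      · exact absurd (mono _ _ h hI) m5
    · rintro ⟨F, hF, hIF⟩
      refine mono _ _ hIF ?_
      simp only [X6, List.mem_cons, List.not_mem_nil, or_false] at hF
      rcases hF with rfl | rfl | rfl | rfl | rfl
      · refine filled_of_fill ?_ f1
        intro i hi
        simp only [Finset.mem_insert, Finset.mem_singleton] at hi
        rcases hi with rfl | rfl | rfl <;> simp [f]
      · refine filled_of_fill ?_ f5
        intro i hi
        simp only [Finset.mem_insert, Finset.mem_singleton] at hi
        rcases hi with rfl | rfl | rfl <;> simp [f]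
      · refine filled_of_fill ?_ f2
        intro i hi
        simp only [Finset.mem_insert, Finset.mem_singleton] at hi
        rcases hi with rfl | rfl | rfl <;> simp [f]
      · refine filled_of_fill ?_ f3
        intro i hi
        simp only [Finset.mem_insert, Finset.mem_singleton] at hi
        rcases hi with rfl | rfl | rfl <;> simp [f]
      · refine filled_of_fill ?_ f4
        intro i hi
        simp only [Finset.mem_insert, Finset.mem_singleton] at hi
        rcases hi with rfl | rfl | rfl <;> simp [f]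

end Pool.Agent.Lib.MP_73b196_co.Str
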