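import Mathlib

/-!
# Complexes on subsets of an ambient type, connected sets, minors

A complex is a set `D` of finite subsets of a fixed type `V`, with vertex set `U : Finset V`. A minor
(deletions and contractions) is given by disjoint connected sets `A i` of vertices; its faces are the
sets `I` of indices such that some face of `D` meets all `A i`, `i ∈ I`.
-/

set_option autoImplicit false

namespace Pool.Agent.Lib.MP_73b196_co.Str

variable {V : Type} [DecidableEq V]

/-- A simplicial complex with vertex set `U`. -/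
structure Cpx (D : Set (Finset V)) (U : Finset V) : Prop where
  empty : ∅ ∈ D
  vert : ∀ v ∈ U, {v} ∈ D
  down : ∀ F ∈ D, ∀ G, G ⊆ F → G ∈ D
  on : ∀ F ∈ D, F ⊆ U

/-- Adjacent vertices. -/
def Adj (D : Set (Finset V)) (u v : V) : Prop := u ≠ v ∧ {u, v} ∈ D

/-- `A` is nonempty and connected in the 1-skeleton. -/
def Con (D : Set (Finset V)) (A : Finset V) : Prop :=
  A.Nonempty ∧ ∀ B, B ⊆ A → B.Nonempty → (∀ b ∈ B, ∀ a ∈ A, Adj D b a → a ∈ B) → B = A

/-- Some face meets all the sets `A i`, `i ∈ I`. -/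
def Filled {W : Type} (D : Set (Finset V)) (A : W → Finset V) (I : Finset W) : Prop :=
  ∃ F ∈ D, ∀ i ∈ I, (F ∩ A i).Nonempty

/-- Disjoint connected sets. -/
structure Model {k : ℕ} (D : Set (Finset V)) (A : Fin k → Finset V) : Prop where
  disj : ∀ i j, i ≠ j → Disjoint (A i) (A j)
  con : ∀ i, Con D (A i)

/-- `D` has the complex with vertex set `Fin k` and facets `L` as a minor. -/
def HasMinor (D : Set (Finset V)) (k : ℕ) (L : List (Finset (Fin k))) : Prop :=
  ∃ A : Fin k → Finset V, Model D A ∧ ∀ I, Filled D A I ↔ ∃ F ∈ L, I ⊆ F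

/-- The complete graph with four vertices. -/
def K0 : List (Finset (Fin 4)) := [{0, 1}, {0, 2}, {0, 3}, {1, 2}, {1, 3}, {2, 3}]

/-- One filled triangle. -/
def K1 : List (Finset (Fin 4)) := [{0, 1, 2}, {0, 3}, {1, 3}, {2, 3}]

/-- The boundary of the simplex with `k` vertices. -/
def Bd (k : ℕ) : List (Finset (Fin k)) := List.ofFn fun i : Fin k => Finset.univ.erase i

/-- The complex `{1234, 125, 345}`. -/
def T5 : List (Finset (Fin 5)) := [{0, 1, 2, 3}, {0, 1, 4}, {2, 3, 4}]

/-- The Moebius strip with five vertices. -/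
def M5 : List (Finset (Fin 5)) := [{0, 1, 2}, {0, 1, 3}, {0, 2, 4}, {1, 3, 4}, {2, 3, 4}]

/-- The complex `{135, 245, 136, 146, 246}`. -/
def X6 : List (Finset (Fin 6)) := [{0, 2, 4}, {1, 3, 4}, {0, 2, 5}, {0, 3, 5}, {1, 3, 5}]

/-- None of the five complexes and no boundary of a simplex with at least four vertices is a minor. -/
structure Good (D : Set (Finset V)) : Prop where
  bd : ∀ k, 4 ≤ k → ¬ HasMinor D k (Bd k)
  k0 : ¬ HasMinor D 4 K0
  k1 : ¬ HasMinor D 4 K1
  t5 : ¬ HasMinor D 5 T5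
  m5 : ¬ HasMinor D 5 M5
  x6 : ¬ HasMinor D 6 X6

/-- The faces inside `W`. -/
def res (D : Set (Finset V)) (W : Finset V) : Set (Finset V) := {F | F ∈ D ∧ F ⊆ W}

/-- The contraction map. -/
def cf (A : Finset V) (a v : V) : V := if v ∈ A then a else v

/-- Contraction of the set `A` to its element `a`. -/
def ctr (D : Set (Finset V)) (A : Finset V) (a : V) : Set (Finset V) :=
  {G | ∃ F ∈ D, G = F.image (cf A a)}

/-- The minor given by a family of sets. -/
def mi {W : Type} (D : Set (Finset V)) (A : W → Finset V) : Set (Finset W) := {I | Filled D A I}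

/-- The family of sets of a deletion. -/
def fd (W : Finset V) (v : V) : Finset V := if v ∈ W then {v} else ∅

/-- The family of sets of a contraction. -/
def fc (A : Finset V) (a v : V) : Finset V := if v = a then A else if v ∈ A then ∅ else {v}

/-- Disjoint sets, each of them empty or connected. -/
structure Fam {W : Type} (D : Set (Finset V)) (A : W → Finset V) : Prop where
  disj : ∀ i j, i ≠ j → Disjoint (A i) (A j)
  con : ∀ i, A i = ∅ ∨ Con D (A i)

theorem Adj.symm {D : Set (Finset V)} {u v : V} (h : Adj D u v) : Adj D v u :=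
  ⟨h.1.symm, by rw [Finset.pair_comm]; exact h.2⟩

theorem adj_comm {D : Set (Finset V)} {u v : V} : Adj D u v ↔ Adj D v u :=
  ⟨Adj.symm, Adj.symm⟩

/-- A pair of disjoint sets is filled iff some edge joins them. -/
theorem con_singleton (D : Set (Finset V)) (a : V) : Con D {a} := by
  refine ⟨Finset.singleton_nonempty a, ?_⟩
  intro B hB hne _
  exact (Finset.Nonempty.subset_singleton_iff hne).1 hB

/-- The union of connected sets along a connected set is connected. -/
theorem con_biUnion {W : Type} [DecidableEq W] {D : Set (Finset V)} (hD : ∀ F ∈ D, ∀ G, G ⊆ F → G ∈ D)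
    {A : W → Finset V} (hA : Fam D A) {B : Finset W} (hB : Con (mi D A) B)
    (hne : (B.biUnion A).Nonempty) : Con D (B.biUnion A) := by
  classical
  refine ⟨hne, ?_⟩
  intro X hX hXne hcl
  -- the indices whose set meets `X`
  have hfull : ∀ w ∈ B, (X ∩ A w).Nonempty → A w ⊆ X := by
    intro w hw hXw
    rcases hA.con w with h | h
    · rw [h]
      exact Finset.empty_subset _
    · have h1 := h.2 (X ∩ A w) Finset.inter_subset_right hXw (by
        intro b hb a ha hba
        rw [Finset.mem_inter] at hb ⊢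
        exact ⟨hcl b hb.1 a (Finset.mem_biUnion.2 ⟨w, hw, ha⟩) hba, ha⟩)
      rw [← h1]
      exact Finset.inter_subset_left
  have h1 := hB.2 (B.filter fun w => (X ∩ A w).Nonempty) (Finset.filter_subset _ _) (by
    obtain ⟨x, hx⟩ := hXne
    obtain ⟨w, hw, hxw⟩ := Finset.mem_biUnion.1 (hX hx)
    exact ⟨w, Finset.mem_filter.2 ⟨hw, ⟨x, Finset.mem_inter.2 ⟨hx, hxw⟩⟩⟩⟩) (by
    intro w hw w' hw' hww'
    rw [Finset.mem_filter] at hw ⊢
    refine ⟨hw', ?_⟩
    obtain ⟨F, hF, hF'⟩ := hww'.2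
    obtain ⟨u, hu⟩ := hF' w (by simp)
    obtain ⟨u', hu'⟩ := hF' w' (by simp)
    rw [Finset.mem_inter] at hu hu'
    have huX : u ∈ X := hfull w hw.1 hw.2 hu.2
    have hne' : u ≠ u' := by
      rintro rfl
      exact Finset.disjoint_left.1 (hA.disj w w' hww'.1) hu.2 hu'.2
    refine ⟨u', Finset.mem_inter.2 ⟨hcl u huX u' (Finset.mem_biUnion.2 ⟨w', hw', hu'.2⟩)
      ⟨hne', hD F hF _ ?_⟩, hu'.2⟩⟩
    intro v hv
    rw [Finset.mem_insert, Finset.mem_singleton] at hv
    rcases hv with rfl | rfl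
    · exact hu.1
    · exact hu'.1)
  apply Finset.Subset.antisymm hX
  intro v hv
  obtain ⟨w, hw, hvw⟩ := Finset.mem_biUnion.1 hv
  rw [← h1, Finset.mem_filter] at hw
  exact hfull w hw.1 hw.2 hvw

/-- Minors of minors are minors. -/
theorem minor_trans {W : Type} [DecidableEq W] {D : Set (Finset V)}
    (hD : ∀ F ∈ D, ∀ G, G ⊆ F → G ∈ D) {A : W → Finset V} (hA : Fam D A) {k : ℕ}
    {L : List (Finset (Fin k))} (hL : ∀ i, ∃ F ∈ L, i ∈ F) (h : HasMinor (mi D A) k L) :
    HasMinor D k L := by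
  classical
  obtain ⟨B, hB, hBL⟩ := h
  have key : ∀ I : Finset (Fin k), Filled D (fun i => (B i).biUnion A) I ↔ Filled (mi D A) B I := by
    intro I
    constructor
    · rintro ⟨F, hF, hF'⟩
      refine ⟨(I.biUnion B).filter fun w => (F ∩ A w).Nonempty, ?_, ?_⟩
      · refine ⟨F, hF, ?_⟩
        intro w hw
        exact (Finset.mem_filter.1 hw).2
      · intro i hi
        obtain ⟨v, hv⟩ := hF' i hi
        rw [Finset.mem_inter] at hv
        obtain ⟨w, hw, hvw⟩ := Finset.mem_biUnion.1 hv.2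
        refine ⟨w, Finset.mem_inter.2 ⟨Finset.mem_filter.2 ⟨Finset.mem_biUnion.2 ⟨i, hi, hw⟩, ?_⟩, hw⟩⟩
        exact ⟨v, Finset.mem_inter.2 ⟨hv.1, hvw⟩⟩
    · rintro ⟨J, ⟨F, hF, hF'⟩, hJ⟩
      refine ⟨F, hF, ?_⟩
      intro i hi
      obtain ⟨w, hw⟩ := hJ i hi
      rw [Finset.mem_inter] at hw
      obtain ⟨v, hv⟩ := hF' w hw.1
      rw [Finset.mem_inter] at hv
      exact ⟨v, Finset.mem_inter.2 ⟨hv.1, Finset.mem_biUnion.2 ⟨w, hw.2, hv.2⟩⟩⟩
  refine ⟨fun i => (B i).biUnion A, ⟨?_, ?_⟩, fun I => (key I).trans (hBL I)⟩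
  · intro i j hij
    rw [Finset.disjoint_left]
    intro v hv hv'
    obtain ⟨w, hw, hvw⟩ := Finset.mem_biUnion.1 hv
    obtain ⟨w', hw', hvw'⟩ := Finset.mem_biUnion.1 hv'
    by_cases h : w = w'
    · subst h
      exact Finset.disjoint_left.1 (hB.disj i j hij) hw hw'
    · exact Finset.disjoint_left.1 (hA.disj w w' h) hvw hvw'
  · intro i
    refine con_biUnion hD hA (hB.con i) ?_
    obtain ⟨F, hF, hiF⟩ := hL i
    obtain ⟨G, -, hG⟩ := (key {i}).2 ((hBL {i}).2 ⟨F, hF, Finset.singleton_subset_iff.2 hiF⟩)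
    obtain ⟨v, hv⟩ := hG i (Finset.mem_singleton_self i)
    exact ⟨v, (Finset.mem_inter.1 hv).2⟩

theorem mem_bd {k : ℕ} {F : Finset (Fin k)} : F ∈ Bd k ↔ ∃ i, F = Finset.univ.erase i := by
  unfold Bd
  rw [List.mem_ofFn]
  constructor
  · rintro ⟨i, hi⟩
    exact ⟨i, hi.symm⟩
  · rintro ⟨i, hi⟩
    exact ⟨i, hi.symm⟩

theorem bd_iff {k : ℕ} (I : Finset (Fin k)) : (∃ F ∈ Bd k, I ⊆ F) ↔ I ≠ Finset.univ := by
  constructor
  · rintro ⟨F, hF, hI⟩ rfl
    obtain ⟨i, rfl⟩ := mem_bd.1 hF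
    exact Finset.notMem_erase i _ (hI (Finset.mem_univ i))
  · intro h
    have h1 : ∃ i, i ∉ I := by
      by_contra h2
      push Not at h2
      exact h (Finset.eq_univ_of_forall h2)
    obtain ⟨i, hi⟩ := h1
    refine ⟨_, mem_bd.2 ⟨i, rfl⟩, ?_⟩
    intro j hj
    exact Finset.mem_erase.2 ⟨fun h3 => hi (h3 ▸ hj), Finset.mem_univ j⟩

theorem bd_cover {k : ℕ} (hk : 4 ≤ k) (i : Fin k) : ∃ F ∈ Bd k, i ∈ F := by
  obtain ⟨F, hF, hi⟩ := (bd_iff {i}).2 (by
    intro h
    have h1 := congrArg Finset.card h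
    rw [Finset.card_singleton, Finset.card_univ, Fintype.card_fin] at h1
    omega)
  exact ⟨F, hF, Finset.singleton_subset_iff.1 hi⟩

/-- Minors of good complexes are good. -/
theorem Good.mi {W : Type} [DecidableEq W] {D : Set (Finset V)} (h : Good D)
    (hD : ∀ F ∈ D, ∀ G, G ⊆ F → G ∈ D) {A : W → Finset V} (hA : Fam D A) : Good (mi D A) where
  bd := fun k hk h1 => h.bd k hk (minor_trans hD hA (bd_cover hk) h1)
  k0 := fun h1 => h.k0 (minor_trans hD hA (by decide) h1)
  k1 := fun h1 => h.k1 (minor_trans hD hA (by decide) h1)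
  t5 := fun h1 => h.t5 (minor_trans hD hA (by decide) h1)
  m5 := fun h1 => h.m5 (minor_trans hD hA (by decide) h1)
  x6 := fun h1 => h.x6 (minor_trans hD hA (by decide) h1)

/-! ### Deletion -/

theorem Cpx.res {D : Set (Finset V)} {U W : Finset V} (h : Cpx D U) (hW : W ⊆ U) :
    Cpx (res D W) W where
  empty := ⟨h.empty, Finset.empty_subset _⟩
  vert := fun v hv => ⟨h.vert v (hW hv), Finset.singleton_subset_iff.2 hv⟩
  down := fun F hF G hG => ⟨h.down F hF.1 G hG, hG.trans hF.2⟩
  on := fun F hF => hF.2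

theorem fd_mem {W : Finset V} {v : V} (h : v ∈ W) : fd W v = {v} := if_pos h

theorem fd_notMem {W : Finset V} {v : V} (h : v ∉ W) : fd W v = ∅ := if_neg h

theorem fc_self (A : Finset V) (a : V) : fc A a a = A := if_pos rfl

theorem fc_mem {A : Finset V} {a v : V} (h : v ≠ a) (h' : v ∈ A) : fc A a v = ∅ := by
  unfold fc
  rw [if_neg h, if_pos h']

theorem fc_notMem {A : Finset V} {a v : V} (h : v ≠ a) (h' : v ∉ A) : fc A a v = {v} := by
  unfold fc
  rw [if_neg h, if_neg h']

theorem res_eq_mi {D : Set (Finset V)} (hD : ∀ F ∈ D, ∀ G, G ⊆ F → G ∈ D) (W : Finset V) :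
    res D W = mi D (fd W) := by
  ext I
  constructor
  · rintro ⟨hI, hIW⟩
    refine ⟨I, hI, fun v hv => ⟨v, ?_⟩⟩
    rw [fd_mem (hIW hv)]
    exact Finset.mem_inter.2 ⟨hv, Finset.mem_singleton_self v⟩
  · rintro ⟨F, hF, hF'⟩
    have h1 : ∀ v ∈ I, v ∈ W ∧ v ∈ F := by
      intro v hv
      obtain ⟨u, hu⟩ := hF' v hv
      rw [Finset.mem_inter] at hu
      by_cases hvW : v ∈ W
      · rw [fd_mem hvW, Finset.mem_singleton] at hu
        exact ⟨hvW, hu.2 ▸ hu.1⟩
      · rw [fd_notMem hvW] at hu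
        exact absurd hu.2 (Finset.notMem_empty _)
    exact ⟨hD F hF I fun v hv => (h1 v hv).2, fun v hv => (h1 v hv).1⟩

theorem Good.res {D : Set (Finset V)} {U : Finset V} (h : Good D) (hc : Cpx D U) (W : Finset V) :
    Good (res D W) := by
  rw [res_eq_mi hc.down]
  refine h.mi hc.down ⟨?_, ?_⟩
  · intro i j hij
    rw [Finset.disjoint_left]
    intro v hv hv'
    have h1 : ∀ w, v ∈ fd W w → v = w := by
      intro w hw
      unfold fd at hw
      split_ifs at hw
      · exact Finset.mem_singleton.1 hw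
      · exact absurd hw (Finset.notMem_empty _)
    exact hij ((h1 i hv).symm.trans (h1 j hv'))
  · intro i
    by_cases h1 : i ∈ W
    · rw [fd_mem h1]
      exact Or.inr (con_singleton D i)
    · rw [fd_notMem h1]
      exact Or.inl rfl

/-! ### Contraction -/

theorem ctr_eq_mi {D : Set (Finset V)} (hD : ∀ F ∈ D, ∀ G, G ⊆ F → G ∈ D) {A : Finset V} {a : V}
    (ha : a ∈ A) :
    ctr D A a = mi D (fc A a) := by
  ext I
  constructor
  · rintro ⟨F, hF, rfl⟩
    refine ⟨F, hF, ?_⟩
    intro w hw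
    obtain ⟨v, hv, rfl⟩ := Finset.mem_image.1 hw
    refine ⟨v, Finset.mem_inter.2 ⟨hv, ?_⟩⟩
    unfold cf
    by_cases h : v ∈ A
    · rw [if_pos h, fc_self]
      exact h
    · have h1 : v ≠ a := fun h1 => h (h1 ▸ ha)
      rw [if_neg h, fc_notMem h1 h]
      exact Finset.mem_singleton_self v
  · rintro ⟨F, hF, hF'⟩
    refine ⟨F.filter fun v => cf A a v ∈ I, hD F hF _ (Finset.filter_subset _ _), ?_⟩
    ext w
    rw [Finset.mem_image]
    constructor
    · intro hw
      obtain ⟨v, hv⟩ := hF' w hw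
      rw [Finset.mem_inter] at hv
      refine ⟨v, ?_⟩
      have h2 : cf A a v = w := by
        unfold cf
        by_cases h3 : w = a
        · rw [h3, fc_self] at hv
          rw [if_pos hv.2, h3]
        · by_cases h4 : w ∈ A
          · rw [fc_mem h3 h4] at hv
            exact absurd hv.2 (Finset.notMem_empty _)
          · rw [fc_notMem h3 h4, Finset.mem_singleton] at hv
            rw [hv.2, if_neg h4]
      exact ⟨Finset.mem_filter.2 ⟨hv.1, by rw [h2]; exact hw⟩, h2⟩
    · rintro ⟨v, hv, rfl⟩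
      exact (Finset.mem_filter.1 hv).2

theorem Good.ctr {D : Set (Finset V)} {U : Finset V} (h : Good D) (hc : Cpx D U) {A : Finset V}
    {a : V} (ha : a ∈ A) (hA : Con D A) : Good (ctr D A a) := by
  rw [ctr_eq_mi hc.down ha]
  refine h.mi hc.down ⟨?_, ?_⟩
  · intro i j hij
    rw [Finset.disjoint_left]
    intro v hv hv'
    have h1 : ∀ w, v ∈ fc A a w → w = cf A a v := by
      intro w hw
      unfold cf
      by_cases h2 : w = a
      · rw [h2, fc_self] at hw
        rw [if_pos hw, h2]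
      · by_cases h3 : w ∈ A
        · rw [fc_mem h2 h3] at hw
          exact absurd hw (Finset.notMem_empty _)
        · rw [fc_notMem h2 h3, Finset.mem_singleton] at hw
          rw [hw, if_neg h3]
    exact hij ((h1 i hv).trans (h1 j hv').symm)
  · intro i
    by_cases h1 : i = a
    · rw [h1, fc_self]
      exact Or.inr hA
    · by_cases h2 : i ∈ A
      · rw [fc_mem h1 h2]
        exact Or.inl rfl
      · rw [fc_notMem h1 h2]
        exact Or.inr (con_singleton D i)

theorem Cpx.ctr {D : Set (Finset V)} {U A : Finset V} {a : V} (h : Cpx D U) (ha : a ∈ A)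
    (hA : A ⊆ U) : Cpx (ctr D A a) (insert a (U \ A)) where
  empty := ⟨∅, h.empty, by simp⟩
  vert := by
    intro v hv
    rw [Finset.mem_insert, Finset.mem_sdiff] at hv
    rcases hv with rfl | hv
    · refine ⟨{v}, h.vert v (hA ha), ?_⟩
      rw [Finset.image_singleton]
      unfold cf
      rw [if_pos ha]
    · refine ⟨{v}, h.vert v hv.1, ?_⟩
      rw [Finset.image_singleton]
      unfold cf
      rw [if_neg hv.2]
  down := by
    intro F hF G hG
    rw [ctr_eq_mi h.down ha] at hF ⊢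
    obtain ⟨F', hF', h1⟩ := hF
    exact ⟨F', hF', fun i hi => h1 i (hG hi)⟩
  on := by
    rintro F ⟨F', hF', rfl⟩
    intro v hv
    obtain ⟨u, hu, rfl⟩ := Finset.mem_image.1 hv
    unfold cf
    rw [Finset.mem_insert, Finset.mem_sdiff]
    by_cases h1 : u ∈ A
    · left
      rw [if_pos h1]
    · right
      rw [if_neg h1]
      exact ⟨h.on F' hF' hu, h1⟩

end Pool.Agent.Lib.MP_73b196_co.Str
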