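import Pool.Agent.Lib.MP_73b196_co.Cases
import Pool.Agent.Lib.MP_73b196_co.Six
import Pool.Agent.Lib.MP_73b196_co.Str.Defs

/-!
# Minors of a complex of Markov degree at most four, and the necessary condition
-/

set_option autoImplicit false

namespace Pool.Agent.Lib.MP_73b196_co.Str

open Pool.Agent.Lib.MP_73b196_co

variable {V W : Type} [Fintype V] [DecidableEq V] [Fintype W] [DecidableEq W]

/-- The tables with the same marginals as `push c x` are of the form `push c z`: version with
connected fibres of the contraction map. -/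
theorem exists_push_con (c : V → Option W) {Δ : Set (Finset V)} (hs : ∀ w, ∃ v, c v = some w)
    (hnone : ∀ v, c v = none → ({v} : Finset V) ∈ Δ)
    (hcon : ∀ (w : W) (f : V → Bool), (∀ u v, c u = some w → c v = some w →
      ({u, v} : Finset V) ∈ Δ → f u = f v) → ∀ u v, c u = some w → c v = some w → f u = f v)
    (x : (W → Bool) → ℕ) (z : (V → Bool) → ℕ) (hz : SameMarginals Δ (push c x) z) :
    z = push c (fun j => z (pull c j)) := by
  rw [same_iff] at hz
  have h0 : ∀ i, (∀ j, pull c j ≠ i) → z i = 0 := by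
    intro i hi
    by_cases h1 : ∃ v, c v = none ∧ i v = true
    · obtain ⟨v, hv, hiv⟩ := h1
      apply eq_zero_of_mg {v}
      rw [← hz _ (hnone v hv), mg_push]
      apply Finset.sum_eq_zero
      intro j _
      rw [if_neg]
      intro h
      have := h v (Finset.mem_singleton_self v)
      rw [pull_none c hv, hiv] at this
      exact absurd this (by decide)
    · push Not at h1
      by_cases h2 : ∃ u v w, c u = some w ∧ c v = some w ∧ ({u, v} : Finset V) ∈ Δ ∧ i u ≠ i v
      · obtain ⟨u, v, w, hu, hv, huvm, huv⟩ := h2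
        apply eq_zero_of_mg {u, v}
        rw [← hz _ huvm, mg_push]
        apply Finset.sum_eq_zero
        intro j _
        rw [if_neg]
        intro h
        apply huv
        rw [← h u (by simp), ← h v (by simp), pull_some c hu, pull_some c hv]
      · exfalso
        have h3 : ∀ w u v, c u = some w → c v = some w → i u = i v := by
          intro w
          apply hcon w i
          intro u v hu hv huv
          by_contra hne
          exact h2 ⟨u, v, w, hu, hv, huv, hne⟩
        choose r hr using hs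
        apply hi (fun w => i (r w))
        funext v
        rcases hc : c v with _ | w
        · rw [pull_none c hc]
          have := h1 v hc
          revert this
          cases i v <;> simp
        · rw [pull_some c hc]
          exact h3 w _ _ (hr w) hc
  funext i
  by_cases hi : ∃ j, pull c j = i
  · obtain ⟨j, rfl⟩ := hi
    rw [push_pull c hs]
  · push Not at hi
    rw [h0 i hi]
    unfold push
    symm
    apply Finset.sum_eq_zero
    intro j _
    rw [if_neg (hi j)]

/-- The marginals of the pulled back table. -/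
theorem mg_pull (c : V → Option W) (hs : ∀ w, ∃ v, c v = some w) {Δ : Set (Finset V)}
    (hΔ : ∀ F ∈ Δ, ∀ G, G ⊆ F → G ∈ Δ) (x z : (W → Bool) → ℕ)
    (h : ∀ F ∈ Δ, ∀ i0, mg F (toInt (push c x)) i0 = mg F (toInt (push c z)) i0)
    (G : Finset W) (hG : ∃ F ∈ Δ, G ⊆ img c F) (j0 : W → Bool) :
    mg G (toInt x) j0 = mg G (toInt z) j0 := by
  obtain ⟨F, hF, hG⟩ := hG
  classical
  set F' : Finset V := F.filter fun v => ∃ w ∈ G, c v = some w with hF'
  have h2 : F' ∈ Δ := hΔ F hF F' (Finset.filter_subset _ _)
  have h3 : img c F' = G := by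
    ext w
    rw [mem_img]
    constructor
    · rintro ⟨v, hv, hvw⟩
      rw [hF', Finset.mem_filter] at hv
      obtain ⟨-, w', hw', hv'⟩ := hv
      rw [hvw] at hv'
      rwa [Option.some.inj hv']
    · intro hw
      obtain ⟨v, hv, hvw⟩ := (mem_img c).1 (hG hw)
      exact ⟨v, by rw [hF', Finset.mem_filter]; exact ⟨hv, w, hw, hvw⟩, hvw⟩
  rw [← h3, ← mg_push_pull, ← mg_push_pull]
  exact h F' h2 _

/-- Composition of a table with the contraction map. -/
def pb (c : V → Option W) (m : (V → Bool) → ℤ) : (W → Bool) → ℤ := fun j => m (pull c j)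

theorem degree_pb (c : V → Option W) (hs : ∀ w, ∃ v, c v = some w) (m : (V → Bool) → ℤ) :
    degree (pb c m) ≤ degree m := by
  unfold degree pb
  rw [← Finset.sum_image (f := fun i => max (m i) 0)
    (g := pull c) (s := Finset.univ) (fun a _ b _ h => pull_inj c hs h)]
  exact Finset.sum_le_sum_of_subset_of_nonneg (Finset.subset_univ _)
    (fun i _ _ => le_max_right _ _)

/-- The Markov degree does not grow under deletions and contractions. -/
theorem mdle_push (c : V → Option W) {Δ : Set (Finset V)} (hΔ : IsComplex Δ)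
    (hs : ∀ w, ∃ v, c v = some w)
    (hcon : ∀ (w : W) (f : V → Bool), (∀ u v, c u = some w → c v = some w →
      ({u, v} : Finset V) ∈ Δ → f u = f v) → ∀ u v, c u = some w → c v = some w → f u = f v)
    (d : ℤ) (hd : MarkovDegreeLE Δ d) : MarkovDegreeLE {G : Finset W | ∃ F ∈ Δ, G ⊆ img c F} d := by
  set Γ : Set (Finset W) := {G : Finset W | ∃ F ∈ Δ, G ⊆ img c F} with hΓ
  obtain ⟨B, ⟨hfin, hmove, hconn⟩, hdeg⟩ := hd
  refine ⟨{m' | IsMove Γ m' ∧ ∃ m ∈ B, m' = pb c m}, ⟨?_, ?_, ?_⟩, ?_⟩
  · refine (hfin.image (pb c)).subset ?_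
    rintro m' ⟨-, m, hm, rfl⟩
    exact ⟨m, hm, rfl⟩
  · intro m' hm'
    exact hm'.1
  · intro x y hxy
    rw [same_iff] at hxy
    have h1 : SameMarginals Δ (push c x) (push c y) := by
      rw [same_iff]
      intro F hF i0
      exact mg_push_congr c F x y (hxy (img c F) ⟨F, hF, subset_rfl⟩) i0
    have key : ∀ t, Relation.ReflTransGen (Step B) (push c x) t →
        SameMarginals Δ (push c x) t ∧ ∃ z, t = push c z ∧
          Relation.ReflTransGen (Step {m' | IsMove Γ m' ∧ ∃ m ∈ B, m' = pb c m}) x z := by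
      intro t ht
      induction ht with
      | refl => exact ⟨fun F _ j => rfl, x, rfl, Relation.ReflTransGen.refl⟩
      | @tail s t' _ hstep ih =>
        obtain ⟨ih1, z, hz, hzz⟩ := ih
        obtain ⟨m, hm, hm'⟩ := hstep
        have hmv := ((isMove_iff Δ m).1 (hmove m hm)).2
        have h2 : SameMarginals Δ (push c x) t' := by
          rw [same_iff] at ih1 ⊢
          intro F hF i0
          rw [ih1 F hF i0]
          rcases hm' with h | h
          · rw [h, mg_add, hmv F hF i0, add_zero]
          · rw [h, mg_sub, hmv F hF i0, sub_zero]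
        refine ⟨h2, _, exists_push_con c hs (fun v _ => hΔ.vertex v) hcon x t' h2, ?_⟩
        set z' : (W → Bool) → ℕ := fun j => t' (pull c j) with hz'
        have ht' : t' = push c z' := exists_push_con c hs (fun v _ => hΔ.vertex v) hcon x t' h2
        by_cases hzz' : z' = z
        · rw [hzz']
          exact hzz
        refine hzz.tail ?_
        -- the move
        have h3 : toInt z' = toInt z + pb c m ∨ toInt z' = toInt z - pb c m := by
          rcases hm' with h | h
          · left
            funext j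
            have h4 := congrFun h (pull c j)
            simp only [toInt, Pi.add_apply, hz, push_pull c hs] at h4 ⊢
            exact h4
          · right
            funext j
            have h4 := congrFun h (pull c j)
            simp only [toInt, Pi.sub_apply, hz, push_pull c hs] at h4 ⊢
            exact h4
        refine ⟨pb c m, ⟨?_, m, hm, rfl⟩, h3⟩
        rw [isMove_iff]
        constructor
        · intro h4
          apply hzz'
          apply toInt_injective
          rcases h3 with h | h
          · rw [h, h4, add_zero]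
          · rw [h, h4, sub_zero]
        · intro G hG j0
          have h5 : mg G (toInt z) j0 = mg G (toInt z') j0 := by
            apply mg_pull c hs hΔ.down z z' _ G hG
            intro F hF i0
            rw [← hz, ← ht']
            rw [same_iff] at ih1 h2
            rw [← ih1 F hF i0, ← h2 F hF i0]
          rcases h3 with h | h
          · rw [h, mg_add] at h5
            linarith
          · rw [h, mg_sub] at h5
            linarith
    obtain ⟨-, z, hz, hzz⟩ := key _ (hconn _ _ h1)
    have h2 : y = z := by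
      funext j
      rw [← push_pull c hs y j, ← push_pull c hs z j, hz]
    rw [h2]
    exact hzz
  · rintro m' ⟨-, m, hm, rfl⟩
    exact (degree_pb c hs m).trans (hdeg m hm)

/-- The contraction map of a family of disjoint sets. -/
noncomputable def cmod (A : W → Finset V) (v : V) : Option W := by
  classical
  exact if h : ∃ i, v ∈ A i then some h.choose else none

theorem cmod_iff {A : W → Finset V} (hd : ∀ i j, i ≠ j → Disjoint (A i) (A j)) (v : V) (w : W) :
    cmod A v = some w ↔ v ∈ A w := by
  unfold cmod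
  split_ifs with h
  · have h1 := h.choose_spec
    constructor
    · intro h2
      rw [← Option.some.inj h2]
      exact h1
    · intro h2
      congr 1
      by_contra hne
      exact Finset.disjoint_left.1 (hd _ _ hne) h1 h2
  · constructor
    · intro h2
      exact absurd h2 (by simp)
    · intro h2
      exact absurd ⟨w, h2⟩ h

/-- The Markov degree of a minor. -/
theorem mdle_mi {Δ : Set (Finset V)} (hΔ : IsComplex Δ) {A : W → Finset V}
    (hd : ∀ i j, i ≠ j → Disjoint (A i) (A j)) (hA : ∀ i, Con Δ (A i)) (d : ℤ)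
    (h : MarkovDegreeLE Δ d) : MarkovDegreeLE (mi Δ A) d := by
  have h1 := mdle_push (cmod A) hΔ (fun w => by
    obtain ⟨v, hv⟩ := (hA w).1
    exact ⟨v, (cmod_iff hd v w).2 hv⟩) (by
    intro w f hf u v hu hv
    rw [cmod_iff hd] at hu hv
    have h2 := (hA w).2 ((A w).filter fun a => f a = f u) (Finset.filter_subset _ _)
      ⟨u, Finset.mem_filter.2 ⟨hu, rfl⟩⟩ (by
        intro b hb a ha hba
        rw [Finset.mem_filter] at hb ⊢
        refine ⟨ha, ?_⟩
        rw [← hb.2]
        exact (hf b a ((cmod_iff hd b w).2 hb.1) ((cmod_iff hd a w).2 ha) hba.2).symm)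
    have h3 : v ∈ (A w).filter fun a => f a = f u := by rw [h2]; exact hv
    exact ((Finset.mem_filter.1 h3).2).symm) d h
  have h2 : {G : Finset W | ∃ F ∈ Δ, G ⊆ img (cmod A) F} = mi Δ A := by
    ext G
    constructor
    · rintro ⟨F, hF, hG⟩
      refine ⟨F, hF, ?_⟩
      intro i hi
      obtain ⟨v, hv, hvi⟩ := (mem_img (cmod A)).1 (hG hi)
      exact ⟨v, Finset.mem_inter.2 ⟨hv, (cmod_iff hd v i).1 hvi⟩⟩
    · rintro ⟨F, hF, hG⟩
      refine ⟨F, hF, ?_⟩
      intro i hi
      obtain ⟨v, hv⟩ := hG i hi
      rw [Finset.mem_inter] at hv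
      exact (mem_img (cmod A)).2 ⟨v, hv.1, (cmod_iff hd v i).2 hv.2⟩
  rwa [h2] at h1

/-- The complex with the given facets. -/
def gen {k : ℕ} (L : List (Finset (Fin k))) : Set (Finset (Fin k)) := {I | ∃ F ∈ L, I ⊆ F}

theorem gen_complex {k : ℕ} (L : List (Finset (Fin k))) (h0 : L ≠ []) (hv : ∀ v, ∃ F ∈ L, v ∈ F) :
    IsComplex (gen L) where
  empty := by
    obtain ⟨F, hF⟩ := List.exists_mem_of_ne_nil L h0
    exact ⟨F, hF, Finset.empty_subset F⟩
  vertex := by
    intro v
    obtain ⟨F, hF, hvF⟩ := hv v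
    exact ⟨F, hF, Finset.singleton_subset_iff.2 hvF⟩
  down := by
    rintro G ⟨F, hF, hG⟩ G' hG'
    exact ⟨F, hF, hG'.trans hG⟩

/-- A minor of a complex of Markov degree at most four has Markov degree at most four. -/
theorem minor_mdle {Δ : Set (Finset V)} (hΔ : IsComplex Δ) {k : ℕ} {L : List (Finset (Fin k))}
    (h : HasMinor Δ k L) {d : ℤ} (hd : MarkovDegreeLE Δ d) : MarkovDegreeLE (gen L) d := by
  obtain ⟨A, hA, hL⟩ := h
  have h1 := mdle_mi hΔ hA.disj hA.con d hd
  have h2 : mi Δ A = gen L := by
    ext I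
    exact hL I
  rwa [h2] at h1

theorem bad_gen {m : ℕ} (hm : codeOk m) (L : List (Finset (Fin m))) (hL : IsComplex (gen L))
    (X Y : List ℕ) (low : List (Finset (Fin m)))
    (up : Finset (Fin m) → Bool) (h : chk m X Y low up = true)
    (hup : ∀ G ∈ gen L, up G = true) (hlow : ∀ G ∈ low, G ∈ gen L) :
    ¬ MarkovDegreeLE (gen L) 4 := by
  refine bad_del hm hL (id : Fin m → Fin m) Function.injective_id X Y low up h ?_ ?_
  · intro G hG hG'
    rw [Finset.image_id] at hG'
    rw [hup G hG'] at hG
    exact absurd hG (by decide)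
  · intro G hG
    rw [Finset.image_id]
    exact hlow G hG

theorem bad_K0 : ¬ MarkovDegreeLE (gen K0) 4 := by
  refine bad_gen codeOk_four K0 (gen_complex K0 (by decide) (by decide)) _ _ lowK upK chkK ?_ ?_
  · rintro G ⟨F, hF, hG⟩
    have key : ∀ F ∈ K0, ∀ G : Finset (Fin 4), G ⊆ F → upK G = true := by decide +kernel
    exact key F hF G hG
  · intro G hG
    exact ⟨G, hG, subset_rfl⟩

theorem bad_K1 : ¬ MarkovDegreeLE (gen K1) 4 := by
  refine bad_gen codeOk_four K1 (gen_complex K1 (by decide) (by decide)) _ _ lowK upK chkK ?_ ?_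
  · rintro G ⟨F, hF, hG⟩
    have key : ∀ F ∈ K1, ∀ G : Finset (Fin 4), G ⊆ F → upK G = true := by decide +kernel
    exact key F hF G hG
  · intro G hG
    have key : ∀ G ∈ lowK, ∃ F ∈ K1, G ⊆ F := by decide +kernel
    exact key G hG

theorem bad_T5 : ¬ MarkovDegreeLE (gen T5) 4 := by
  refine bad_gen codeOk_five T5 (gen_complex T5 (by decide) (by decide)) _ _ lowT upT chkT ?_ ?_
  · rintro G ⟨F, hF, hG⟩
    unfold upT
    rw [List.any_eq_true]
    exact ⟨F, hF, decide_eq_true hG⟩
  · intro G hG
    exact ⟨G, hG, subset_rfl⟩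

theorem bad_M5 : ¬ MarkovDegreeLE (gen M5) 4 := by
  refine bad_gen codeOk_five M5 (gen_complex M5 (by decide) (by decide)) _ _ lowM upM chkM ?_ ?_
  · rintro G ⟨F, hF, hG⟩
    unfold upM
    rw [List.any_eq_true]
    exact ⟨F, hF, decide_eq_true hG⟩
  · intro G hG
    exact ⟨G, hG, subset_rfl⟩

theorem bad_X6 : ¬ MarkovDegreeLE (gen X6) 4 := by
  refine X6_bad (gen_complex X6 (by decide) (by decide)) ?_ ?_
  · intro F hF
    exact ⟨F, hF, subset_rfl⟩
  · rintro G ⟨F, hF, hG⟩
    exact ⟨F, hF, hG⟩

theorem bad_Bd (k : ℕ) (hk : 4 ≤ k) : ¬ MarkovDegreeLE (gen (Bd k)) 4 := by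
  have hmem : ∀ F : Finset (Fin k), F ∈ Bd k ↔ ∃ i, Finset.univ.erase i = F := by
    intro F
    unfold Bd
    rw [List.mem_ofFn]
  have h0 : (0 : ℕ) < k := by omega
  have h1 : (1 : ℕ) < k := by omega
  refine bad_min (gen_complex (Bd k) ?_ ?_) Finset.univ ?_ ?_ (by simpa using hk)
  · intro h
    have h2 : Finset.univ.erase (⟨0, h0⟩ : Fin k) ∈ Bd k := (hmem _).2 ⟨_, rfl⟩
    rw [h] at h2
    exact absurd h2 (by simp)
  · intro v
    by_cases hv : v = ⟨0, h0⟩
    · refine ⟨Finset.univ.erase ⟨1, h1⟩, (hmem _).2 ⟨_, rfl⟩, ?_⟩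
      rw [Finset.mem_erase]
      refine ⟨?_, Finset.mem_univ _⟩
      rw [hv]
      intro h
      exact absurd (congrArg Fin.val h) (by simp)
    · refine ⟨Finset.univ.erase ⟨0, h0⟩, (hmem _).2 ⟨_, rfl⟩, ?_⟩
      rw [Finset.mem_erase]
      exact ⟨hv, Finset.mem_univ _⟩
  · rintro ⟨F, hF, hF'⟩
    obtain ⟨i, rfl⟩ := (hmem F).1 hF
    exact Finset.notMem_erase i _ (hF' (Finset.mem_univ i))
  · intro v _
    exact ⟨_, (hmem _).2 ⟨v, rfl⟩, subset_rfl⟩

/-- The necessary condition: a complex of Markov degree at most four has none of the excluded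
minors. -/
theorem good_of_mdle {Δ : Set (Finset V)} (hΔ : IsComplex Δ) (h : MarkovDegreeLE Δ 4) : Good Δ where
  bd := fun k hk hm => bad_Bd k hk (minor_mdle hΔ hm h)
  k0 := fun hm => bad_K0 (minor_mdle hΔ hm h)
  k1 := fun hm => bad_K1 (minor_mdle hΔ hm h)
  t5 := fun hm => bad_T5 (minor_mdle hΔ hm h)
  m5 := fun hm => bad_M5 (minor_mdle hΔ hm h)
  x6 := fun hm => bad_X6 (minor_mdle hΔ hm h)

end Pool.Agent.Lib.MP_73b196_co.Str
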