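import Pool.Agent.Lib.MP_73b196_co.St.S3
import Pool.Agent.Lib.MP_73b196_co.St.G1
import Pool.Agent.Lib.MP_73b196_co.St.G2
import Pool.Agent.Lib.MP_73b196_co.St.G3
import Pool.Agent.Lib.MP_73b196_co.St.H1
import Pool.Agent.Lib.MP_73b196_co.St.H2
import Pool.Agent.Lib.MP_73b196_co.St.H3
import Pool.Agent.Lib.MP_73b196_co.St.H4
import Pool.Agent.Lib.MP_73b196_co.St.H5
import Pool.Agent.Lib.MP_73b196_co.St.H6
import Pool.Agent.Lib.MP_73b196_co.St.H7
import Pool.Agent.Lib.MP_73b196_co.St.I1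
import Pool.Agent.Lib.MP_73b196_co.St.I2
import Pool.Agent.Lib.MP_73b196_co.St.I3
import Pool.Agent.Lib.MP_73b196_co.St.I4
import Pool.Agent.Lib.MP_73b196_co.St.I5
import Pool.Agent.Lib.MP_73b196_co.St.I6
import Pool.Agent.Lib.MP_73b196_co.Fib.Bridge
import Pool.Agent.Lib.MP_73b196_co.Fib.Cone
import Pool.Agent.Lib.MP_73b196_co.Fib.ConeD
import Pool.Agent.Lib.MP_73b196_co.Fib.CrossD
import Pool.Agent.Lib.MP_73b196_co.Fib.Face
import Pool.Agent.Lib.MP_73b196_co.Fib.GG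
import Pool.Agent.Lib.MP_73b196_co.Fib.Lat
import Pool.Agent.Lib.MP_73b196_co.Fib.Omega
import Pool.Agent.Lib.MP_73b196_co.Fib.Par
import Pool.Agent.Lib.MP_73b196_co.Fib.Real
import Pool.Agent.Lib.MP_73b196_co.Fib.Slice
import Pool.Agent.Lib.MP_73b196_co.Fib.Tri
import Pool.Agent.Lib.MP_73b196_co.Fib.Unit
import Pool.Agent.Lib.MP_73b196_co.Str.InP
import Pool.Agent.Lib.MP_73b196_co.Str.Nec

/-!
# The final assembly
-/

set_option autoImplicit false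

namespace Pool.Agent.Lib.MP_73b196_co.Str

open Pool.Agent.Lib.MP_73b196_co Pool.Agent.Lib.MP_73b196_co.St

theorem aPar : Fib.StmtPar := Fib.tPar Fib.tUnit (Fib.tGG Fib.tFace)

theorem aConeD : Fib.StmtConeD := Fib.tConeD Fib.tUnit

theorem aCrossD : Fib.StmtCrossD :=
  Fib.tCrossD Fib.tUnit Fib.tFace Fib.tCone (Fib.tOmega Fib.tFace Fib.tCone) Fib.tSlice Fib.tReal
    Fib.tLat

theorem aH4 : StmtH4 := tH4 Fib.tConeP aConeD

theorem aH6 : StmtH6 := tH6 tG1 tG2 Fib.tConeP Fib.tCrossP aCrossD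

theorem aI3 : StmtI3 := tI3 tG1 tG2 aPar

theorem aH7 : StmtH7 :=
  tH7 s3A4 tA5 s3A6 thmS (tH1 Fib.tFaceP) (tH2 Fib.tFaceP) (tH3 aPar) aH4 (tH5 tG1 tG2 Fib.tSer) aH6

/-- All complexes of the class have Markov degree at most four, if the second half of the structure
theorem holds. -/
theorem aI6 (hS2 : StmtS2) : StmtI6 :=
  tI6 hS2 aH7 (tI1 Fib.tCone) (tI2 Fib.tFace) aI3 (tI4 tG3 (Fib.tTri (Fib.tGG Fib.tFace)) aConeD)
    (tI5 s3A6 thmS aH4 aH6 aI3)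

/-- The characterisation, if the second half of the structure theorem holds. -/
theorem final_of (hS2 : StmtS2) (n : ℕ) (Δ : Set (Finset (Fin n))) (hΔ : IsComplex Δ) :
    MarkovDegreeLE Δ 4 ↔ Good Δ := by
  constructor
  · exact good_of_mdle hΔ
  · intro hG
    exact (Fib.tBridge n Δ hΔ).2 (aI6 hS2 (Fin n) Δ (good_inP ⟨hΔ.empty, hΔ.down⟩ hG))

end Pool.Agent.Lib.MP_73b196_co.Str
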