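import Pool.Agent.Lib.MP_73b196_co.Str.Final
import Pool.Agent.Lib.MP_73b196_co.St.S2
import Pool.Agent.Lib.MP_73b196_co.St.YFin
import Pool.Agent.Lib.MP_73b196_co.St.ThmH

/-!
# The characterisation for all complexes on `Fin n`

A complex is a set of subsets of `Fin n` which contains the empty set and is closed under subsets;
elements of `Fin n` which are no vertices of the complex are allowed.
-/

set_option autoImplicit false

namespace Pool.Agent.Lib.MP_73b196_co.Str

open Pool.Agent.Lib.MP_73b196_co Pool.Agent.Lib.MP_73b196_co.St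

theorem aS2 : StmtS2 := tS2 thmH yChp

/-- `Fib.tBridge` for complexes which need not contain all the sets `{v}`. -/
theorem bridge (n : ℕ) (Δ : Set (Finset (Fin n))) (h0 : ∅ ∈ Δ) : MarkovDegreeLE Δ 4 ↔ Fib.Dg Δ := by
  constructor
  · rintro ⟨B, ⟨-, hB, hc⟩, hd⟩ T T' hTT
    have h1 := hc (Fib.BridgeN.tm T) (Fib.BridgeN.tm T') ((Fib.BridgeN.fb_iff Δ T T').1 hTT)
    have h2 : ∀ x y, Relation.ReflTransGen (Step B) x y →
        Fib.Cn Δ 4 (Fib.BridgeN.mt x) (Fib.BridgeN.mt y) := by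
      intro x y h
      induction h with
      | refl => exact Relation.ReflTransGen.refl
      | tail _ hs ih => exact ih.tail (Fib.BridgeN.mv_of_step h0 hB hd hs)
    have h3 := h2 _ _ h1
    rwa [Fib.BridgeN.mt_tm, Fib.BridgeN.mt_tm] at h3
  · intro hD
    refine ⟨B4 Δ, ⟨B4_finite h0, fun m hm => hm.1, ?_⟩, fun m hm => hm.2⟩
    intro x y hxy
    have h1 : Fib.Fb Δ (Fib.BridgeN.mt x) (Fib.BridgeN.mt y) := by
      rw [Fib.BridgeN.fb_iff, Fib.BridgeN.tm_mt, Fib.BridgeN.tm_mt]
      exact hxy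
    have h2 : ∀ S S', Fib.Cn Δ 4 S S' →
        Relation.ReflTransGen (Step (B4 Δ)) (Fib.BridgeN.tm S) (Fib.BridgeN.tm S') := by
      intro S S' h
      induction h with
      | refl => exact Relation.ReflTransGen.refl
      | tail _ hs ih => exact ih.trans (Fib.BridgeN.step_of_mv h0 hs)
    have h3 := h2 _ _ (hD _ _ h1)
    rwa [Fib.BridgeN.tm_mt, Fib.BridgeN.tm_mt] at h3

/-- Sufficiency. -/
theorem dg_of_good {n : ℕ} {Δ : Set (Finset (Fin n))} (hΔ : IsCx Δ) (hG : Good Δ) : Fib.Dg Δ :=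
  aI6 aS2 (Fin n) Δ (good_inP hΔ hG)

section ghost

variable {V : Type} [DecidableEq V]

/-- Adding sets `{g}` to a complex does not destroy a minor. -/
theorem minor_ghost {D D' : Set (Finset V)} (hD : ∀ F ∈ D, ∀ G, G ⊆ F → G ∈ D) (h0 : ∅ ∈ D)
    (h1 : D ⊆ D') (h2 : ∀ F ∈ D', F ∈ D ∨ ∃ g, F = {g}) {k : ℕ} {L : List (Finset (Fin k))}
    (hL : ∀ i, ∃ F ∈ L, i ∈ F) (h : HasMinor D k L) : HasMinor D' k L := by
  obtain ⟨A, hA, hF⟩ := h
  refine ⟨A, ⟨hA.disj, fun i => ⟨(hA.con i).1, ?_⟩⟩, ?_⟩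
  · intro B hB hne hcl
    refine (hA.con i).2 B hB hne fun b hb a ha hba => hcl b hb a ha ⟨hba.1, h1 hba.2⟩
  · intro I
    rw [← hF I]
    constructor
    · rintro ⟨F, hFD, hFI⟩
      rcases h2 F hFD with hFD | ⟨g, rfl⟩
      · exact ⟨F, hFD, hFI⟩
      · by_cases hI : I = ∅
        · subst hI
          exact ⟨∅, h0, fun i hi => absurd hi (Finset.notMem_empty i)⟩
        · obtain ⟨i, hi⟩ := Finset.nonempty_iff_ne_empty.2 hI
          have hg : g ∈ A i := by
            obtain ⟨v, hv⟩ := hFI i hi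
            rw [Finset.mem_inter, Finset.mem_singleton] at hv
            rw [← hv.1]
            exact hv.2
          have hI1 : I = {i} := by
            ext j
            rw [Finset.mem_singleton]
            constructor
            · intro hj
              by_contra hji
              obtain ⟨v, hv⟩ := hFI j hj
              rw [Finset.mem_inter, Finset.mem_singleton] at hv
              have hgj : g ∈ A j := by
                rw [← hv.1]
                exact hv.2
              exact Finset.disjoint_left.1 (hA.disj j i hji) hgj hg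
            · rintro rfl
              exact hi
          rw [hI1, hF {i}]
          obtain ⟨F, hFL, hiF⟩ := hL i
          exact ⟨F, hFL, Finset.singleton_subset_iff.2 hiF⟩
    · rintro ⟨F, hFD, hFI⟩
      exact ⟨F, h1 hFD, hFI⟩

end ghost

/-- The complex of the sets with at most one element, all of them in `W`. -/
def pts {n : ℕ} (W : Finset (Fin n)) : Set (Finset (Fin n)) := {F | F = ∅ ∨ ∃ g ∈ W, F = {g}}

theorem pts_cx {n : ℕ} (W : Finset (Fin n)) : IsCx (pts W) where
  empty := Or.inl rfl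
  down := by
    rintro F (rfl | ⟨g, hg, rfl⟩) G hG
    · exact Or.inl (Finset.subset_empty.1 hG)
    · rcases Finset.subset_singleton_iff.1 hG with h | h
      · exact Or.inl h
      · exact Or.inr ⟨g, hg, h⟩

theorem pts_no {n : ℕ} (W : Finset (Fin n)) {k : ℕ} {L : List (Finset (Fin k))} {i j : Fin k}
    (hij : i ≠ j) (h : ∃ F ∈ L, {i, j} ⊆ F) : ¬ HasMinor (pts W) k L := by
  rintro ⟨A, hA, hF⟩
  obtain ⟨F, hFD, hFI⟩ := (hF {i, j}).2 h
  obtain ⟨u, hu⟩ := hFI i (by simp)
  obtain ⟨v, hv⟩ := hFI j (by simp)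
  rw [Finset.mem_inter] at hu hv
  have huv : u = v := by
    rcases hFD with rfl | ⟨g, -, rfl⟩
    · exact absurd hu.1 (Finset.notMem_empty u)
    · rw [Finset.mem_singleton] at hu hv
      rw [hu.1, hv.1]
  subst huv
  exact Finset.disjoint_left.1 (hA.disj i j hij) hu.2 hv.2

theorem pts_good {n : ℕ} (W : Finset (Fin n)) : Good (pts W) where
  bd := by
    intro k hk
    have h0 : (0 : ℕ) < k := by omega
    have h1 : (1 : ℕ) < k := by omega
    have h2 : (2 : ℕ) < k := by omega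
    refine pts_no W (i := ⟨0, h0⟩) (j := ⟨1, h1⟩) (by simp) ?_
    rw [bd_iff]
    intro h
    have h3 : (⟨2, h2⟩ : Fin k) ∈ ({⟨0, h0⟩, ⟨1, h1⟩} : Finset (Fin k)) := by
      rw [h]
      exact Finset.mem_univ _
    simp at h3
  k0 := pts_no W (i := 0) (j := 1) (by decide) (by decide)
  k1 := pts_no W (i := 0) (j := 1) (by decide) (by decide)
  t5 := pts_no W (i := 0) (j := 1) (by decide) (by decide)
  m5 := pts_no W (i := 0) (j := 1) (by decide) (by decide)
  x6 := pts_no W (i := 0) (j := 2) (by decide) (by decide)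

/-- Necessity. -/
theorem good_of_dg {n : ℕ} {Δ : Set (Finset (Fin n))} (hΔ : IsCx Δ) (hD : Fib.Dg Δ) : Good Δ := by
  have hvs : ∀ v, v ∈ vs Δ ↔ {v} ∈ Δ := fun v => mem_vs
  have h1 : Fib.Dg (Δ ∪ pts (Finset.univ \ vs Δ)) := by
    refine Fib.tFace (Fin n) Δ (pts (Finset.univ \ vs Δ)) (vs Δ) (Finset.univ \ vs Δ) ?_ ?_ ?_ ?_ hD
      (dg_of_good (pts_cx _) (pts_good _))
    · intro F hF v hv
      exact (hvs v).2 (hΔ.down F hF _ (Finset.singleton_subset_iff.2 hv))
    · rintro F (rfl | ⟨g, hg, rfl⟩)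
      · exact Finset.empty_subset _
      · exact Finset.singleton_subset_iff.2 hg
    · rw [Finset.inter_sdiff_self]
      exact hΔ.empty
    · rw [Finset.inter_sdiff_self]
      exact Or.inl rfl
  have hcx : IsComplex (Δ ∪ pts (Finset.univ \ vs Δ)) := by
    refine ⟨Or.inl hΔ.empty, fun v => ?_, ?_⟩
    · by_cases hv : {v} ∈ Δ
      · exact Or.inl hv
      · refine Or.inr (Or.inr ⟨v, ?_, rfl⟩)
        rw [Finset.mem_sdiff]
        exact ⟨Finset.mem_univ v, fun h => hv ((hvs v).1 h)⟩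
    · rintro F (hF | hF) G hG
      · exact Or.inl (hΔ.down F hF G hG)
      · exact Or.inr ((pts_cx _).down F hF G hG)
  have hG := good_of_mdle hcx ((bridge n _ hcx.empty).2 h1)
  have key : ∀ (k : ℕ) (L : List (Finset (Fin k))), (∀ i, ∃ F ∈ L, i ∈ F) → HasMinor Δ k L →
      HasMinor (Δ ∪ pts (Finset.univ \ vs Δ)) k L := by
    intro k L hL h
    refine minor_ghost hΔ.down hΔ.empty (fun F hF => Or.inl hF) ?_ hL h
    rintro F (hF | rfl | ⟨g, -, rfl⟩)
    · exact Or.inl hF
    · exact Or.inl hΔ.empty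
    · exact Or.inr ⟨g, rfl⟩
  refine ⟨fun k hk h => hG.bd k hk (key _ _ ?_ h), fun h => hG.k0 (key _ _ (by decide) h),
    fun h => hG.k1 (key _ _ (by decide) h), fun h => hG.t5 (key _ _ (by decide) h),
    fun h => hG.m5 (key _ _ (by decide) h), fun h => hG.x6 (key _ _ (by decide) h)⟩
  intro i
  have h3 : ({i} : Finset (Fin k)) ≠ Finset.univ := by
    intro h4
    have h5 := congrArg Finset.card h4
    rw [Finset.card_singleton, Finset.card_univ, Fintype.card_fin] at h5
    omega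
  obtain ⟨F, hF, hi⟩ := (bd_iff {i}).2 h3
  exact ⟨F, hF, Finset.singleton_subset_iff.1 hi⟩

/-- The characterisation. -/
theorem final (n : ℕ) (Δ : Set (Finset (Fin n))) (hΔ : IsCx Δ) : MarkovDegreeLE Δ 4 ↔ Good Δ := by
  rw [bridge n Δ hΔ.empty]
  exact ⟨good_of_dg hΔ, dg_of_good hΔ⟩

end Pool.Agent.Lib.MP_73b196_co.Str
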